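import Mathlib

/-! Trees of dilations with generic ratios: the nodes. -/

set_option autoImplicit false

namespace Pool.Agent.D0H51.CC

open Finset MeasureTheory Filter Topology

/-- the nodes: `nd 0 = n`, `nd (i + 1) = ⌊l i * nd (π i)⌋` -/
noncomputable def nd (π : ℕ → ℕ) (l : ℕ → ℝ) (n : ℕ) : ℕ → ℕ
  | 0 => n
  | (i + 1) => if _h : π i ≤ i then ⌊l i * (nd π l n (π i) : ℝ)⌋₊ else 0
termination_by i => i

theorem nd_zero (π : ℕ → ℕ) (l : ℕ → ℝ) (n : ℕ) : nd π l n 0 = n := by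
  rw [nd]

theorem nd_succ (π : ℕ → ℕ) (l : ℕ → ℝ) (n i : ℕ) (h : π i ≤ i) :
    nd π l n (i + 1) = ⌊l i * (nd π l n (π i) : ℝ)⌋₊ := by
  rw [nd, dif_pos h]

theorem nd_congr (π : ℕ → ℕ) (hπ : ∀ j, π j ≤ j) (l l' : ℕ → ℝ) (n : ℕ) (i : ℕ)
    (h : ∀ j, j < i → l j = l' j) : nd π l n i = nd π l' n i := by
  induction i using Nat.strong_induction_on with
  | _ i ih =>
    rcases i with _ | i
    · rw [nd_zero, nd_zero]
    · rw [nd_succ π l n i (hπ i), nd_succ π l' n i (hπ i), h i (Nat.lt_succ_self i),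
        ih (π i) (Nat.lt_succ_of_le (hπ i)) (fun j hj => h j (by have := hπ i; omega))]

theorem floor_strict {t : ℝ} (ht : 1 ≤ t) {x y : ℕ} (hxy : x < y) :
    ⌊t * (x : ℝ)⌋₊ < ⌊t * (y : ℝ)⌋₊ := by
  have h1 : (x : ℝ) + 1 ≤ y := by exact_mod_cast hxy
  have h0 : (0 : ℝ) ≤ x := Nat.cast_nonneg x
  have h2 : t * (x : ℝ) + 1 ≤ t * y := by nlinarith
  have h3 : 0 ≤ t * (x : ℝ) := by positivity
  have h4 : ⌊t * (x : ℝ) + 1⌋₊ ≤ ⌊t * (y : ℝ)⌋₊ := Nat.floor_mono h2
  rw [Nat.floor_add_one h3] at h4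
  omega

theorem nd_mono (π : ℕ → ℕ) (hπ : ∀ j, π j ≤ j) (l : ℕ → ℝ) (i : ℕ)
    (h : ∀ j, j < i → 1 ≤ l j) : StrictMono (fun n => nd π l n i) := by
  induction i using Nat.strong_induction_on with
  | _ i ih =>
    rcases i with _ | i
    · intro x y hxy
      simp only [nd_zero]
      exact hxy
    · intro x y hxy
      simp only []
      rw [nd_succ π l x i (hπ i), nd_succ π l y i (hπ i)]
      exact floor_strict (h i (Nat.lt_succ_self i))
        (ih (π i) (Nat.lt_succ_of_le (hπ i)) (fun j hj => h j (by have := hπ i; omega)) hxy)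

theorem nd_le (π : ℕ → ℕ) (hπ : ∀ j, π j ≤ j) (l : ℕ → ℝ) (i : ℕ)
    (h : ∀ j, j < i → 1 ≤ l j) : ∃ C : ℝ, 0 ≤ C ∧ ∀ n : ℕ, (nd π l n i : ℝ) ≤ C * n := by
  induction i using Nat.strong_induction_on with
  | _ i ih =>
    rcases i with _ | i
    · exact ⟨1, zero_le_one, fun n => by rw [nd_zero, one_mul]⟩
    · obtain ⟨C, hC0, hC⟩ := ih (π i) (Nat.lt_succ_of_le (hπ i))
        (fun j hj => h j (by have := hπ i; omega))
      have h1 := h i (Nat.lt_succ_self i)
      refine ⟨l i * C, by positivity, fun n => ?_⟩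
      rw [nd_succ π l n i (hπ i)]
      calc ((⌊l i * (nd π l n (π i) : ℝ)⌋₊ : ℕ) : ℝ) ≤ l i * (nd π l n (π i) : ℝ) :=
            Nat.floor_le (by positivity)
        _ ≤ l i * (C * n) := mul_le_mul_of_nonneg_left (hC n) (by linarith)
        _ = l i * C * n := by ring

theorem ev_log (C : ℝ) : ∀ᶠ n : ℕ in atTop, C ≤ Real.log n :=
  (Real.tendsto_log_atTop.comp tendsto_natCast_atTop_atTop).eventually_ge_atTop C

theorem nd_growth (π : ℕ → ℕ) (hπ : ∀ j, π j ≤ j) (l : ℕ → ℝ) (i : ℕ)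
    (h : ∀ j, j < i → 1 ≤ l j) : ∀ᶠ n : ℕ in atTop, (nd π l n i : ℝ) ≤ n * Real.log n ^ 1 := by
  obtain ⟨C, hC0, hC⟩ := nd_le π hπ l i h
  filter_upwards [ev_log C] with n hn
  refine (hC n).trans ?_
  rw [pow_one, mul_comm]
  exact mul_le_mul_of_nonneg_left hn (Nat.cast_nonneg n)

/-- extension of a vector of ratios -/
noncomputable def ext {r : ℕ} (α : Fin r → ℝ) (j : ℕ) : ℝ := if h : j < r then α ⟨j, h⟩ else 2

theorem ext_lt {r : ℕ} (α : Fin r → ℝ) (j : ℕ) (h : j < r) : ext α j = α ⟨j, h⟩ := by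
  unfold ext
  rw [dif_pos h]

theorem ext_snoc {r : ℕ} (β : Fin r → ℝ) (t : ℝ) (j : ℕ) (h : j < r) :
    ext (Fin.snoc β t : Fin (r + 1) → ℝ) j = ext β j := by
  rw [ext_lt _ j (by omega), ext_lt _ j h]
  have e : (⟨j, by omega⟩ : Fin (r + 1)) = Fin.castSucc ⟨j, h⟩ := rfl
  rw [e, Fin.snoc_castSucc]

theorem ext_snoc_last {r : ℕ} (β : Fin r → ℝ) (t : ℝ) :
    ext (Fin.snoc β t : Fin (r + 1) → ℝ) r = t := by
  rw [ext_lt _ r (by omega)]
  have e : (⟨r, by omega⟩ : Fin (r + 1)) = Fin.last r := rfl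
  rw [e, Fin.snoc_last]

theorem ext_init {r : ℕ} (α : Fin (r + 1) → ℝ) (j : ℕ) (h : j < r) :
    ext (fun i : Fin r => α i.castSucc) j = ext α j := by
  rw [ext_lt _ j h, ext_lt _ j (by omega)]
  rfl

theorem ext_ge {r : ℕ} (α : Fin r → ℝ) (h : ∀ i, 1 < α i) (j : ℕ) : 1 ≤ ext α j := by
  unfold ext
  split_ifs with hj
  · exact (h _).le
  · norm_num

theorem ext_meas {r : ℕ} (j : ℕ) : Measurable (fun α : Fin r → ℝ => ext α j) := by
  unfold ext
  by_cases h : j < r
  · simp only [h, dif_pos]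
    exact measurable_pi_apply _
  · simp only [h, dif_neg, not_false_eq_true]
    exact measurable_const

theorem nd_meas {r : ℕ} (π : ℕ → ℕ) (hπ : ∀ j, π j ≤ j) (n i : ℕ) :
    Measurable (fun α : Fin r → ℝ => nd π (ext α) n i) := by
  induction i using Nat.strong_induction_on with
  | _ i ih =>
    rcases i with _ | i
    · simp only [nd_zero]
      exact measurable_const
    · have e : (fun α : Fin r → ℝ => nd π (ext α) n (i + 1)) =
          fun α : Fin r → ℝ => ⌊ext α i * (nd π (ext α) n (π i) : ℝ)⌋₊ := by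
        funext α
        exact nd_succ π (ext α) n i (hπ i)
      rw [e]
      have h1 := ih (π i) (Nat.lt_succ_of_le (hπ i))
      have h2 : Measurable (fun α : Fin r → ℝ => (nd π (ext α) n (π i) : ℝ)) :=
        (measurable_from_nat (f := fun m : ℕ => (m : ℝ))).comp h1
      exact Nat.measurable_floor.comp ((ext_meas i).mul h2)

/-! ### Fubini, the last coordinate -/

theorem snoc_meas (r : ℕ) : Measurable (fun p : (Fin r → ℝ) × ℝ => (Fin.snoc p.1 p.2 : Fin (r + 1) → ℝ)) := by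
  rw [measurable_pi_iff]
  intro i
  refine Fin.lastCases ?_ (fun j => ?_) i
  · simp only [Fin.snoc_last]
    exact measurable_snd
  · simp only [Fin.snoc_castSucc]
    exact (measurable_pi_apply j).comp measurable_fst

theorem fubini_last {r : ℕ} {P : (Fin (r + 1) → ℝ) → Prop} (hm : MeasurableSet {α | P α})
    (h : ∀ᵐ β : Fin r → ℝ, ∀ᵐ t : ℝ, P (Fin.snoc β t)) : ∀ᵐ α : Fin (r + 1) → ℝ, P α := by
  have mp := volume_preserving_piFinSuccAbove (fun _ : Fin (r + 1) => ℝ) (Fin.last r)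
  have sw : MeasurePreserving (Prod.swap : ℝ × (Fin r → ℝ) → (Fin r → ℝ) × ℝ)
      ((volume : Measure ℝ).prod (volume : Measure (Fin r → ℝ)))
      ((volume : Measure (Fin r → ℝ)).prod (volume : Measure ℝ)) := Measure.measurePreserving_swap
  have comp := sw.comp mp
  set T : Set ((Fin r → ℝ) × ℝ) := {p | ¬ P (Fin.snoc p.1 p.2)} with hT
  have hTm : MeasurableSet T := (snoc_meas r) hm.compl
  have hT0 : ((volume : Measure (Fin r → ℝ)).prod (volume : Measure ℝ)) T = 0 := by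
    rw [Measure.measure_prod_null hTm]
    filter_upwards [h] with β hβ
    exact hβ
  have h1 := comp.measure_preimage hTm.nullMeasurableSet
  rw [hT0] at h1
  rw [ae_iff]
  refine measure_mono_null (fun α hα => ?_) h1
  change (Prod.swap (MeasurableEquiv.piFinSuccAbove (fun _ : Fin (r + 1) => ℝ) (Fin.last r) α)) ∈ T
  have e : (Fin.snoc (Prod.swap (MeasurableEquiv.piFinSuccAbove (fun _ : Fin (r + 1) => ℝ) (Fin.last r) α)).1
      (Prod.swap (MeasurableEquiv.piFinSuccAbove (fun _ : Fin (r + 1) => ℝ) (Fin.last r) α)).2 :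
        Fin (r + 1) → ℝ) = α := by
    funext i
    refine Fin.lastCases ?_ (fun j => ?_) i
    · rw [Fin.snoc_last]
      rfl
    · rw [Fin.snoc_castSucc]
      change α ((Fin.last r).succAbove j) = α j.castSucc
      rw [Fin.succAbove_last]
  rw [hT]
  change ¬ P _
  rw [e]
  exact hα

/-- a property of the first coordinates which holds almost everywhere -/
theorem ae_init {r : ℕ} {P : (Fin r → ℝ) → Prop} (h : ∀ᵐ β : Fin r → ℝ, P β) :
    ∀ᵐ α : Fin (r + 1) → ℝ, P (fun i => α i.castSucc) := by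
  have mp := volume_preserving_piFinSuccAbove (fun _ : Fin (r + 1) => ℝ) (Fin.last r)
  have q1 := mp.quasiMeasurePreserving
  have q2 : Measure.QuasiMeasurePreserving (Prod.snd : ℝ × (Fin r → ℝ) → (Fin r → ℝ))
      ((volume : Measure ℝ).prod (volume : Measure (Fin r → ℝ))) (volume : Measure (Fin r → ℝ)) :=
    Measure.quasiMeasurePreserving_snd
  have q3 := (q2.comp q1).ae h
  filter_upwards [q3] with α hα
  have e : (Prod.snd ∘ (MeasurableEquiv.piFinSuccAbove (fun _ : Fin (r + 1) => ℝ) (Fin.last r))) α =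
      fun i : Fin r => α i.castSucc := by
    funext j
    change α ((Fin.last r).succAbove j) = α j.castSucc
    rw [Fin.succAbove_last]
  rw [← e]
  exact hα

theorem gt_one_meas (r : ℕ) : MeasurableSet {α : Fin r → ℝ | ∀ i, 1 < α i} := by
  have e : {α : Fin r → ℝ | ∀ i, 1 < α i} = ⋂ i, {α : Fin r → ℝ | 1 < α i} := by
    ext α
    simp only [Set.mem_iInter]
    exact Iff.rfl
  rw [e]
  exact MeasurableSet.iInter fun i => measurableSet_lt measurable_const (measurable_pi_apply i)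

theorem small_meas1 {r : ℕ} (F : ℕ → (Fin r → ℝ) → ℂ) (hF : ∀ N, Measurable (F N)) :
    MeasurableSet {α : Fin r → ℝ | (∀ i, 1 < α i) → ∀ K : ℕ, ∀ᶠ N : ℕ in atTop,
      ‖F N α‖ ≤ N / Real.log N ^ K} := by
  have e : {α : Fin r → ℝ | (∀ i, 1 < α i) → ∀ K : ℕ, ∀ᶠ N : ℕ in atTop,
      ‖F N α‖ ≤ N / Real.log N ^ K} =
      ({α : Fin r → ℝ | ∀ i, 1 < α i})ᶜ ∪ ⋂ K : ℕ, ⋃ N0 : ℕ, ⋂ N : ℕ, ⋂ (_ : N0 ≤ N),
        {α : Fin r → ℝ | ‖F N α‖ ≤ N / Real.log N ^ K} := by
    ext α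
    rw [Set.mem_union, Set.mem_compl_iff]
    simp only [Set.mem_iInter, Set.mem_iUnion]
    rw [Set.mem_setOf_eq, imp_iff_not_or]
    apply or_congr Iff.rfl
    apply forall_congr'
    intro K
    exact eventually_atTop
  rw [e]
  refine MeasurableSet.union (gt_one_meas r).compl
    (MeasurableSet.iInter fun K => MeasurableSet.iUnion fun N0 =>
      MeasurableSet.iInter fun N => MeasurableSet.iInter fun _ => ?_)
  exact measurableSet_le (hF N).norm measurable_const

end Pool.Agent.D0H51.CC
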