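import Mathlib
import Pool.Agent.D0H91.MG.Asy
import Pool.Agent.D0H51.CC.Nd

/-! Trees of primes with generic ratios: the induction over the edges of the tree. -/

set_option autoImplicit false

namespace Pool.Agent.D0H51.CC

open Finset MeasureTheory Filter Topology
open Pool.Agent.D0H91.MG

theorem abel_small (c : ℕ → ℂ) (M : ℝ) (hc : ∀ n, ‖c n‖ ≤ M)
    (h : ∀ K : ℕ, ∀ᶠ N : ℕ in atTop, ‖∑ n ∈ Icc 1 N, c n‖ ≤ N / Real.log N ^ K)
    (gr : ℕ → ℝ) (n0 : ℕ) (hanti : ∀ n : ℕ, n0 ≤ n → gr (n + 1) ≤ gr n) (hpos : ∀ n, 0 ≤ gr n)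
    (hG : ∀ n, gr n ≤ 2) (K : ℕ) :
    ∀ᶠ N : ℕ in atTop, ‖∑ n ∈ Icc 1 N, c n * (gr n : ℂ)‖ ≤ N / Real.log N ^ K := by
  have hM0 : 0 ≤ M := (norm_nonneg _).trans (hc 0)
  obtain ⟨n1, hn1⟩ := (h (K + 1)).exists_forall_of_atTop
  have hpart : ∀ x : ℕ, n1 + 1 ≤ x → ‖∑ n ∈ Icc 1 x, c n‖ ≤ x / Real.log x ^ (K + 1) :=
    fun x hx => hn1 x (by omega)
  have hsq : Tendsto (fun N : ℕ => (N : ℝ) ^ ((1 : ℝ) / 2)) atTop atTop :=
    (tendsto_rpow_atTop (by norm_num)).comp tendsto_natCast_atTop_atTop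
  filter_upwards [ev_logge (2 * M + 6 * 2 ^ (K + 1)), ev_logge 1,
    hsq.eventually_ge_atTop (max (n0 : ℝ) (n1 + 2) + 1),
    Pool.Agent.W301.SS.ev_log (K + 1) 2 (1 / 2) (by norm_num), eventually_ge_atTop 1] with
    N g1 g2 g3 g4 g6
  have hN1 : (1 : ℝ) ≤ N := by exact_mod_cast g6
  have hN0 : (0 : ℝ) < N := by linarith
  obtain ⟨L, hL⟩ : ∃ L, L = Real.log (N : ℝ) := ⟨_, rfl⟩
  simp only [← hL] at g1 g2 g4 ⊢
  have hL0 : 0 < L := by linarith
  have hLp : 0 < L ^ (K + 1) := by positivity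
  have hLp1 : 1 ≤ L ^ (K + 1) := one_le_pow₀ g2
  obtain ⟨X1, hX1⟩ : ∃ X1 : ℕ, X1 = ⌊(N : ℝ) / L ^ (K + 1)⌋₊ := ⟨_, rfl⟩
  have hs2 : (N : ℝ) ^ ((1 : ℝ) / 2) * (N : ℝ) ^ ((1 : ℝ) / 2) = N := by
    rw [← Real.rpow_add hN0]
    norm_num
  obtain ⟨s, hs⟩ : ∃ s, s = (N : ℝ) ^ ((1 : ℝ) / 2) := ⟨_, rfl⟩
  rw [← hs] at hs2 g3 g4
  have hs1 : 1 ≤ s := by
    rw [hs]
    exact Real.one_le_rpow hN1 (by norm_num)
  have hXle : (X1 : ℝ) ≤ N / L ^ (K + 1) := by
    rw [hX1]
    exact Nat.floor_le (by positivity)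
  have hXge : s ≤ X1 := by
    have a1 : 2 * s ≤ N / L ^ (K + 1) := by
      rw [le_div_iff₀ hLp]
      nlinarith
    have a2 : (N : ℝ) / L ^ (K + 1) < X1 + 1 := by
      rw [hX1]
      exact Nat.lt_floor_add_one _
    linarith
  have hXN : X1 ≤ N := by
    have a1 : (X1 : ℝ) ≤ N := hXle.trans (div_le_self hN0.le hLp1)
    exact_mod_cast a1
  have hXn0 : n0 ≤ X1 := by
    have a1 : (n0 : ℝ) ≤ X1 := by
      have := le_max_left (n0 : ℝ) (n1 + 2)
      linarith
    exact_mod_cast a1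
  have hXn1 : n1 + 2 ≤ X1 := by
    have a1 : ((n1 + 2 : ℕ) : ℝ) ≤ X1 := by
      have := le_max_right (n0 : ℝ) (n1 + 2)
      push_cast
      linarith
    exact_mod_cast a1
  have hX0 : (0 : ℝ) < X1 := by linarith
  have hlogX : L / 2 ≤ Real.log X1 := by
    have a1 := Real.log_le_log (by linarith) hXge
    rw [hs, Real.log_rpow hN0, ← hL] at a1
    linarith
  have e1 : ∑ n ∈ Icc 1 N, c n * (gr n : ℂ) =
      ∑ n ∈ Icc 1 X1, c n * (gr n : ℂ) + ∑ n ∈ Ioc X1 N, c n * (gr n : ℂ) := by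
    have e2 : Icc 1 N = Icc 1 X1 ∪ Ioc X1 N := by
      ext m
      rw [Finset.mem_union, Finset.mem_Icc, Finset.mem_Icc, Finset.mem_Ioc]
      omega
    rw [e2, Finset.sum_union (by
      rw [Finset.disjoint_left]
      intro m h1 h2
      rw [Finset.mem_Icc] at h1
      rw [Finset.mem_Ioc] at h2
      omega)]
  rw [e1]
  have p1 : ‖∑ n ∈ Icc 1 X1, c n * (gr n : ℂ)‖ ≤ (2 * M) * (N / L ^ (K + 1)) := by
    refine (norm_sum_le _ _).trans ?_
    calc ∑ n ∈ Icc 1 X1, ‖c n * (gr n : ℂ)‖ ≤ ∑ n ∈ Icc 1 X1, (2 * M) := by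
          refine Finset.sum_le_sum fun n _ => ?_
          rw [norm_mul, Complex.norm_real, Real.norm_eq_abs, abs_of_nonneg (hpos n)]
          calc ‖c n‖ * gr n ≤ M * 2 := mul_le_mul (hc n) (hG n) (hpos n) hM0
            _ = 2 * M := mul_comm _ _
      _ = X1 * (2 * M) := by
          rw [Finset.sum_const, Nat.card_Icc, Nat.add_sub_cancel, nsmul_eq_mul]
      _ ≤ (2 * M) * (N / L ^ (K + 1)) := by
          rw [mul_comm]
          exact mul_le_mul_of_nonneg_left hXle (by positivity)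
  have p2 : ‖∑ n ∈ Ioc X1 N, c n * (gr n : ℂ)‖ ≤ (6 * 2 ^ (K + 1)) * (N / L ^ (K + 1)) := by
    have q1 : ∀ x : ℕ, X1 ≤ x → x ≤ N → ‖∑ m ∈ Icc 1 x, c m‖ ≤
        2 ^ (K + 1) * (N / L ^ (K + 1)) := by
      intro x hx1 hx2
      refine (hpart x (by omega)).trans ?_
      have r1 : L / 2 ≤ Real.log x := hlogX.trans (Real.log_le_log hX0 (by exact_mod_cast hx1))
      have r2 : (L / 2) ^ (K + 1) ≤ Real.log x ^ (K + 1) := pow_le_pow_left₀ (by positivity) r1 _
      calc (x : ℝ) / Real.log x ^ (K + 1) ≤ N / (L / 2) ^ (K + 1) := by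
            apply div_le_div₀ hN0.le (by exact_mod_cast hx2) (by positivity) r2
        _ = 2 ^ (K + 1) * (N / L ^ (K + 1)) := by
            rw [div_pow]
            field_simp
    have q2 := anti_sum (fun n : ℕ => (gr n : ℂ)) gr
      (fun _ => rfl) n0 X1 N hXn0 hXN hanti 2 hpos hG
    have q3 := abel_le c (fun n : ℕ => (gr n : ℂ)) X1 N hXN (2 ^ (K + 1) * (N / L ^ (K + 1))) 2 2 q1
      (fun m _ => by
        rw [Complex.norm_real, Real.norm_eq_abs, abs_of_nonneg (hpos _)]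
        exact hG _) q2
    refine q3.trans (le_of_eq ?_)
    ring
  have hfin : (2 * M + 6 * 2 ^ (K + 1)) * (N / L ^ (K + 1)) ≤ N / L ^ K := by
    have c1 : N / L ^ K = L * (N / L ^ (K + 1)) := by
      rw [pow_succ]
      field_simp
    rw [c1]
    exact mul_le_mul_of_nonneg_right g1 (by positivity)
  calc ‖_ + _‖ ≤ (2 * M) * (N / L ^ (K + 1)) + (6 * 2 ^ (K + 1)) * (N / L ^ (K + 1)) :=
        (norm_add_le _ _).trans (add_le_add p1 p2)
    _ = (2 * M + 6 * 2 ^ (K + 1)) * (N / L ^ (K + 1)) := by ring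
    _ ≤ _ := hfin

/-- product of the indicators of the primes -/
noncomputable def IP (π : ℕ → ℕ) (l : ℕ → ℝ) (r n : ℕ) : ℂ := ∏ i ∈ range r, ip (nd π l n (i + 1))

/-- product of the densities -/
noncomputable def GP (π : ℕ → ℕ) (l : ℕ → ℝ) (r n : ℕ) : ℂ :=
  ∏ i ∈ range r, (gd (l i * (nd π l n (π i) : ℝ)) : ℂ)

theorem IP_le (π : ℕ → ℕ) (l : ℕ → ℝ) (r n : ℕ) : ‖IP π l r n‖ ≤ 1 := by
  unfold IP
  rw [norm_prod]
  exact Finset.prod_le_one (fun _ _ => norm_nonneg _) fun _ _ => ip_le _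

theorem GP_le (π : ℕ → ℕ) (l : ℕ → ℝ) (r n : ℕ) : ‖GP π l r n‖ ≤ 2 ^ r := by
  unfold GP
  rw [norm_prod]
  calc ∏ i ∈ range r, ‖(gd (l i * (nd π l n (π i) : ℝ)) : ℂ)‖ ≤ ∏ _i ∈ range r, (2 : ℝ) := by
        apply Finset.prod_le_prod (fun _ _ => norm_nonneg _) fun i _ => ?_
        rw [Complex.norm_real, Real.norm_eq_abs, abs_of_nonneg (gd_nonneg _)]
        exact gd_le _
    _ = 2 ^ r := by simp

theorem IP_congr (π : ℕ → ℕ) (hπ : ∀ j, π j ≤ j) (l l' : ℕ → ℝ) (r n : ℕ)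
    (h : ∀ j, j < r → l j = l' j) : IP π l r n = IP π l' r n := by
  unfold IP
  refine Finset.prod_congr rfl fun i hi => ?_
  rw [Finset.mem_range] at hi
  rw [nd_congr π hπ l l' n (i + 1) fun j hj => h j (by omega)]

theorem GP_congr (π : ℕ → ℕ) (hπ : ∀ j, π j ≤ j) (l l' : ℕ → ℝ) (r n : ℕ)
    (h : ∀ j, j < r → l j = l' j) : GP π l r n = GP π l' r n := by
  unfold GP
  refine Finset.prod_congr rfl fun i hi => ?_
  rw [Finset.mem_range] at hi
  rw [nd_congr π hπ l l' n (π i) fun j hj => h j (by have := hπ i; omega), h i hi]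

theorem IP_meas {r : ℕ} (π : ℕ → ℕ) (hπ : ∀ j, π j ≤ j) (s n : ℕ) :
    Measurable (fun α : Fin r → ℝ => IP π (ext α) s n) := by
  unfold IP
  exact Finset.measurable_fun_prod _ fun i _ =>
    (measurable_from_nat (f := ip)).comp (nd_meas π hπ n (i + 1))

theorem gd_node_meas {r : ℕ} (π : ℕ → ℕ) (hπ : ∀ j, π j ≤ j) (i n : ℕ) :
    Measurable (fun α : Fin r → ℝ => (gd (ext α i * (nd π (ext α) n (π i) : ℝ)) : ℂ)) := by
  have h2 : Measurable (fun α : Fin r → ℝ => (nd π (ext α) n (π i) : ℝ)) :=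
    (measurable_from_nat (f := fun m : ℕ => (m : ℝ))).comp (nd_meas π hπ n (π i))
  exact Complex.measurable_ofReal.comp (gd_meas.comp ((ext_meas i).mul h2))

theorem tree_several (π : ℕ → ℕ) (hπ : ∀ j, π j ≤ j) (r : ℕ) :
    ∀ (a : ℕ → ℂ) (M : ℝ), (∀ n, ‖a n‖ ≤ M) →
    ∀ᵐ α : Fin r → ℝ, (∀ i, 1 < α i) → ∀ K : ℕ, ∀ᶠ N : ℕ in atTop,
      ‖∑ n ∈ Icc 1 N, a n * (IP π (ext α) r n - GP π (ext α) r n)‖ ≤ N / Real.log N ^ K := by
  induction r with
  | zero =>
    intro a M _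
    refine Eventually.of_forall fun α _ K => Eventually.of_forall fun N => ?_
    have e : ∑ n ∈ Icc 1 N, a n * (IP π (ext α) 0 n - GP π (ext α) 0 n) = 0 := by
      apply Finset.sum_eq_zero
      intro n _
      unfold IP GP
      simp
    rw [e, norm_zero]
    have := Real.log_natCast_nonneg N
    positivity
  | succ r ih =>
    intro a M ha
    have hM0 : 0 ≤ M := (norm_nonneg _).trans (ha 0)
    have A1 : ∀ᵐ α : Fin (r + 1) → ℝ, (∀ i, 1 < α i) → ∀ K : ℕ, ∀ᶠ N : ℕ in atTop,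
        ‖∑ n ∈ Icc 1 N, a n * (IP π (ext α) r n *
          (ip (nd π (ext α) n (r + 1)) - (gd (ext α r * (nd π (ext α) n (π r) : ℝ)) : ℂ)))‖ ≤
            N / Real.log N ^ K := by
      refine fubini_last (P := fun α => (∀ i, 1 < α i) → ∀ K : ℕ, ∀ᶠ N : ℕ in atTop,
        ‖∑ n ∈ Icc 1 N, a n * (IP π (ext α) r n *
          (ip (nd π (ext α) n (r + 1)) - (gd (ext α r * (nd π (ext α) n (π r) : ℝ)) : ℂ)))‖ ≤
            N / Real.log N ^ K)
        (small_meas1 (fun N α => ∑ n ∈ Icc 1 N, a n * (IP π (ext α) r n *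
          (ip (nd π (ext α) n (r + 1)) - (gd (ext α r * (nd π (ext α) n (π r) : ℝ)) : ℂ))))
            fun N => ?_) ?_
      · refine Finset.measurable_fun_sum _ fun n _ => measurable_const.mul (Measurable.mul ?_ ?_)
        · exact IP_meas π hπ r n
        · exact ((measurable_from_nat (f := ip)).comp (nd_meas π hπ n (r + 1))).sub
            (gd_node_meas π hπ r n)
      · refine Eventually.of_forall fun β => ?_
        by_cases hβ : ∀ i, 1 < β i
        · have hge : ∀ j, j < π r → 1 ≤ ext β j := fun j _ => ext_ge β hβ j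
          have h1 := prime_seq 1 one_pos (fun n => nd π (ext β) n (π r))
            (nd_mono π hπ (ext β) (π r) hge) 1 (nd_growth π hπ (ext β) (π r) hge)
            (fun n => a n * IP π (ext β) r n) M (fun n => by
              rw [norm_mul]
              calc ‖a n‖ * ‖IP π (ext β) r n‖ ≤ M * 1 :=
                    mul_le_mul (ha n) (IP_le _ _ _ _) (norm_nonneg _) hM0
                _ = M := mul_one M)
          filter_upwards [h1] with t ht hpos K
          have ht1 : 1 < t := by simpa using hpos (Fin.last r)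
          have h2 := ht (by linarith) K
          filter_upwards [h2] with N h3
          refine le_trans (le_of_eq ?_) h3
          congr 1
          refine Finset.sum_congr rfl fun n _ => ?_
          have e1 : IP π (ext (Fin.snoc β t : Fin (r + 1) → ℝ)) r n = IP π (ext β) r n :=
            IP_congr π hπ _ _ r n fun j hj => ext_snoc β t j hj
          have e2 : nd π (ext (Fin.snoc β t : Fin (r + 1) → ℝ)) n (π r) = nd π (ext β) n (π r) :=
            nd_congr π hπ _ _ n (π r) fun j hj => ext_snoc β t j (by have := hπ r; omega)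
          rw [nd_succ π _ n r (hπ r), e1, e2, ext_snoc_last, Real.rpow_one]
          ring
        · refine Eventually.of_forall fun t hpos => ?_
          exfalso
          apply hβ
          intro i
          have := hpos i.castSucc
          rwa [Fin.snoc_castSucc] at this
    have A2 := ae_init (ih a M ha)
    filter_upwards [A1, A2] with α h1 h2 hpos K
    have h2' := h2 (fun i => hpos i.castSucc)
    have hc : ∀ n, ‖a n * (IP π (ext fun i : Fin r => α i.castSucc) r n -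
        GP π (ext fun i : Fin r => α i.castSucc) r n)‖ ≤ M * (1 + 2 ^ r) := by
      intro n
      rw [norm_mul]
      apply mul_le_mul (ha n) _ (norm_nonneg _) hM0
      exact (norm_sub_le _ _).trans (add_le_add (IP_le _ _ _ _) (GP_le _ _ _ _))
    have hge : ∀ j, 1 ≤ ext α j := ext_ge α hpos
    have hmono := nd_mono π hπ (ext α) (π r) fun j _ => hge j
    have hr0 : 0 < ext α r := by linarith [hge r]
    obtain ⟨n0, hn0⟩ : ∃ n0 : ℕ, ∀ n : ℕ, n0 ≤ n → 2 ≤ ext α r * (nd π (ext α) n (π r) : ℝ) := by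
      refine ⟨2, fun n hn => ?_⟩
      have b1 : n ≤ nd π (ext α) n (π r) := hmono.le_apply
      have b2 : (2 : ℝ) ≤ (nd π (ext α) n (π r) : ℝ) := by exact_mod_cast hn.trans b1
      nlinarith [hge r]
    have h3 := abel_small _ _ hc h2' (fun n => gd (ext α r * (nd π (ext α) n (π r) : ℝ))) n0
      (fun n hn => gd_anti (hn0 n hn) (mul_le_mul_of_nonneg_left
        (by exact_mod_cast (hmono (Nat.lt_succ_self n)).le) hr0.le))
      (fun _ => gd_nonneg _) (fun _ => gd_le _)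
    filter_upwards [h1 hpos (K + 1), h3 (K + 1), ev_logge 2] with N h4 h5 h6
    have e : ∑ n ∈ Icc 1 N, a n * (IP π (ext α) (r + 1) n - GP π (ext α) (r + 1) n) =
        ∑ n ∈ Icc 1 N, a n * (IP π (ext α) r n *
          (ip (nd π (ext α) n (r + 1)) - (gd (ext α r * (nd π (ext α) n (π r) : ℝ)) : ℂ))) +
        ∑ n ∈ Icc 1 N, a n * (IP π (ext fun i : Fin r => α i.castSucc) r n -
          GP π (ext fun i : Fin r => α i.castSucc) r n) *
            (gd (ext α r * (nd π (ext α) n (π r) : ℝ)) : ℂ) := by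
      rw [← Finset.sum_add_distrib]
      refine Finset.sum_congr rfl fun n _ => ?_
      rw [IP_congr π hπ (ext fun i : Fin r => α i.castSucc) (ext α) r n fun j hj => ext_init α j hj,
        GP_congr π hπ (ext fun i : Fin r => α i.castSucc) (ext α) r n fun j hj => ext_init α j hj]
      unfold IP GP
      rw [Finset.prod_range_succ, Finset.prod_range_succ]
      ring
    rw [e]
    refine (norm_add_le _ _).trans ((add_le_add h4 h5).trans ?_)
    have hL0 : 0 < Real.log (N : ℝ) := by linarith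
    have c1 : (N : ℝ) / Real.log N ^ K = Real.log N * (N / Real.log N ^ (K + 1)) := by
      rw [pow_succ]
      field_simp
    rw [c1]
    have c2 : 0 ≤ (N : ℝ) / Real.log N ^ (K + 1) := by positivity
    nlinarith

end Pool.Agent.D0H51.CC
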