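import Mathlib
import Pool.Agent.D0H51.CC.Main

/-! Trees of primes with generic ratios: asymptotic counts. -/

set_option autoImplicit false

namespace Pool.Agent.D0H51.CC

open Finset MeasureTheory Filter Topology
open Pool.Agent.D0H91.MG

theorem GP_dens {r : ℕ} (π : ℕ → ℕ) (α : Fin r → ℝ) (n : ℕ) :
    GP π (ext α) r n =
      ((dens (fun _ : Fin r => (1 : ℝ)) (fun i n => nd π (ext α) n (π i)) α n : ℝ) : ℂ) := by
  unfold GP Pool.Agent.D0H91.MG.dens
  rw [Finset.prod_range]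
  push_cast
  refine Finset.prod_congr rfl fun i _ => ?_
  rw [Real.rpow_one, ext_lt α i i.2]

open Classical in
theorem IP_eq (π : ℕ → ℕ) (l : ℕ → ℝ) (r n : ℕ) :
    IP π l r n = if ∀ i, i < r → (nd π l n (i + 1)).Prime then 1 else 0 := by
  unfold IP ip
  split_ifs with h
  · exact Finset.prod_eq_one fun i hi => if_pos (h i (Finset.mem_range.1 hi))
  · push Not at h
    obtain ⟨i, hi, h⟩ := h
    exact Finset.prod_eq_zero (Finset.mem_range.2 hi) (if_neg h)

open Classical in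
theorem mixed_tree (π : ℕ → ℕ) (hπ : ∀ j, π j ≤ j) (r : ℕ) (A : Set ℕ) :
    ∀ᵐ α : Fin r → ℝ, (∀ i, 1 < α i) → ∀ (K : ℕ) (ε : ℝ), 0 < ε → ∀ᶠ N : ℕ in atTop,
      |Real.log N ^ r *
        (((Icc 1 N).filter (fun n => n ∈ A ∧ ∀ i, i < r → (nd π (ext α) n (i + 1)).Prime)).card : ℝ) -
        (((Icc 1 N).filter (· ∈ A)).card : ℝ)| ≤
          ε * ((Icc 1 N).filter (· ∈ A)).card + N / Real.log N ^ K := by
  filter_upwards [tree_several π hπ r (fun n => if n ∈ A then 1 else 0) 1 (fun n => by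
    split_ifs <;> simp)] with α hα hpos K ε hε
  have hge : ∀ j, 1 ≤ ext α j := ext_ge α hpos
  have hcnt := cnt_asym (fun _ : Fin r => (1 : ℝ)) (fun _ => one_pos)
    (fun i n => nd π (ext α) n (π i)) (fun i => nd_mono π hπ (ext α) (π i) fun j _ => hge j) 1
    (fun i => nd_growth π hπ (ext α) (π i) fun j _ => hge j) α
    (fun i => by linarith [hpos i]) A (K + 1) ε hε
  filter_upwards [hα hpos (K + r + 1), hcnt, ev_logge 2, eventually_ge_atTop 1] with N h1 h2 h3 h4
  simp only [Finset.prod_const_one, one_mul] at h2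
  have hN0 : (0 : ℝ) < N := by exact_mod_cast (show 0 < N by omega)
  obtain ⟨L, hL⟩ : ∃ L, L = Real.log (N : ℝ) := ⟨_, rfl⟩
  simp only [← hL] at h1 h2 h3 ⊢
  have hL0 : 0 < L := by linarith
  have e1 : ∑ n ∈ Icc 1 N, (if n ∈ A then (1 : ℂ) else 0) * (IP π (ext α) r n - GP π (ext α) r n) =
      (((((Icc 1 N).filter (fun n => n ∈ A ∧ ∀ i, i < r → (nd π (ext α) n (i + 1)).Prime)).card : ℝ) -
        ∑ n ∈ (Icc 1 N).filter (· ∈ A),
          dens (fun _ : Fin r => (1 : ℝ)) (fun i n => nd π (ext α) n (π i)) α n : ℝ) : ℂ) := by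
    have b1 : ∀ n ∈ Icc 1 N, (if n ∈ A then (1 : ℂ) else 0) * (IP π (ext α) r n - GP π (ext α) r n) =
        (if n ∈ A ∧ ∀ i, i < r → (nd π (ext α) n (i + 1)).Prime then (1 : ℂ) else 0) -
          (if n ∈ A then
            ((dens (fun _ : Fin r => (1 : ℝ)) (fun i n => nd π (ext α) n (π i)) α n : ℝ) : ℂ) else 0) := by
      intro n _
      rw [IP_eq, GP_dens]
      by_cases hA : n ∈ A
      · simp [hA]
      · simp [hA]
    rw [Finset.sum_congr rfl b1, Finset.sum_sub_distrib]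
    push_cast
    rw [← Finset.sum_filter, ← Finset.sum_filter, Finset.sum_const, nsmul_eq_mul, mul_one]
  rw [e1, Complex.norm_real, Real.norm_eq_abs] at h1
  set c1 := (((Icc 1 N).filter (fun n => n ∈ A ∧ ∀ i, i < r → (nd π (ext α) n (i + 1)).Prime)).card : ℝ)
  set c2 := ∑ n ∈ (Icc 1 N).filter (· ∈ A),
    dens (fun _ : Fin r => (1 : ℝ)) (fun i n => nd π (ext α) n (π i)) α n
  set c3 := (((Icc 1 N).filter (· ∈ A)).card : ℝ)
  have e2 : L ^ r * c1 - c3 = L ^ r * (c1 - c2) + (L ^ r * c2 - c3) := by ring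
  rw [e2]
  refine (abs_add_le _ _).trans ?_
  have e3 : |L ^ r * (c1 - c2)| ≤ N / L ^ (K + 1) := by
    rw [abs_mul, abs_of_nonneg (by positivity)]
    calc L ^ r * |c1 - c2| ≤ L ^ r * (N / L ^ (K + r + 1)) := mul_le_mul_of_nonneg_left h1 (by positivity)
      _ = N / L ^ (K + 1) := by
          rw [show K + r + 1 = (K + 1) + r by ring, pow_add L (K + 1) r]
          field_simp
  have e4 : N / L ^ K = L * (N / L ^ (K + 1)) := by
    rw [pow_succ]
    field_simp
  have e5 : 0 ≤ (N : ℝ) / L ^ (K + 1) := by positivity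
  have e6 : 2 * (N / L ^ (K + 1)) ≤ L * (N / L ^ (K + 1)) := mul_le_mul_of_nonneg_right h3 e5
  linarith

open Classical in
theorem transfer_tree (π : ℕ → ℕ) (hπ : ∀ j, π j ≤ j) (r : ℕ) (A : Set ℕ) :
    ∀ᵐ α : Fin r → ℝ, (∀ i, 1 < α i) → ∀ (s : ℕ) (S : ℝ),
      (Tendsto (fun N : ℕ => Real.log N ^ s / N * (((Icc 1 N).filter (· ∈ A)).card : ℝ)) atTop (𝓝 S) ↔
       Tendsto (fun N : ℕ => Real.log N ^ (s + r) / N *
        (((Icc 1 N).filter (fun n => n ∈ A ∧ ∀ i, i < r → (nd π (ext α) n (i + 1)).Prime)).card : ℝ)) atTop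
          (𝓝 S)) := by
  filter_upwards [mixed_tree π hπ r A] with α hα hpos s S
  exact lim_iff (fun N : ℕ => Real.log N ^ s / N * (((Icc 1 N).filter (· ∈ A)).card : ℝ))
    (fun N : ℕ => (Real.log N ^ (s + r) / N *
        (((Icc 1 N).filter (fun n => n ∈ A ∧ ∀ i, i < r → (nd π (ext α) n (i + 1)).Prime)).card : ℝ)))
    (fun N => by
      have := Real.log_natCast_nonneg N
      positivity) (fun ε hε => by
      filter_upwards [hα hpos (s + 1) ε hε, ev_logge (1 / ε), ev_logge 1, eventually_ge_atTop 1] with N h2 h3 h4 h5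
      have hN0 : (0 : ℝ) < N := by exact_mod_cast (show 0 < N by omega)
      obtain ⟨L, hL⟩ : ∃ L, L = Real.log (N : ℝ) := ⟨_, rfl⟩
      simp only [← hL] at h2 h3 h4 ⊢
      have hL0 : 0 < L := by linarith
      set c1 := (((Icc 1 N).filter (fun n => n ∈ A ∧ ∀ i, i < r → (nd π (ext α) n (i + 1)).Prime)).card : ℝ)
      set c3 := (((Icc 1 N).filter (· ∈ A)).card : ℝ)
      have e1 : L ^ (s + r) / N * c1 - L ^ s / N * c3 = L ^ s / N * (L ^ r * c1 - c3) := by
        rw [pow_add]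
        ring
      rw [e1, abs_mul, abs_of_nonneg (by positivity)]
      have e2 : L ^ s / N * |L ^ r * c1 - c3| ≤ L ^ s / N * (ε * c3 + N / L ^ (s + 1)) :=
        mul_le_mul_of_nonneg_left h2 (by positivity)
      have e3 : L ^ s / N * (ε * c3 + N / L ^ (s + 1)) = ε * (L ^ s / N * c3) + 1 / L := by
        rw [pow_succ]
        field_simp
      have e4 : 1 / L ≤ ε := by
        rw [div_le_iff₀ hL0]
        rw [div_le_iff₀ hε] at h3
        linarith
      linarith) S

/-- almost every vector has irrational coordinates -/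
theorem ae_irrational (r : ℕ) : ∀ᵐ α : Fin r → ℝ, ∀ i, Irrational (α i) := by
  rw [ae_all_iff]
  intro i
  have h1 : ∀ᵐ x : ℝ, Irrational x := by
    rw [ae_iff]
    have e : {x : ℝ | ¬ Irrational x} = Set.range ((↑) : ℚ → ℝ) := by
      ext x
      unfold Irrational
      simp
    rw [e]
    exact (Set.countable_range _).measure_zero volume
  have h2 : Measure.QuasiMeasurePreserving (Function.eval i) (volume : Measure (Fin r → ℝ))
      (volume : Measure ℝ) := Measure.quasiMeasurePreserving_eval (μ := fun _ : Fin r => (volume : Measure ℝ)) i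
  exact h2.ae h1

theorem ceil_floor {y : ℝ} (hy : Irrational y) (hy0 : 0 ≤ y) : ⌈y⌉₊ - 1 = ⌊y⌋₊ := by
  have h1 : ⌈y⌉₊ ≤ ⌊y⌋₊ + 1 := Nat.ceil_le_floor_add_one y
  have h2 : ⌊y⌋₊ < ⌈y⌉₊ := by
    rw [Nat.lt_ceil]
    refine lt_of_le_of_ne (Nat.floor_le hy0) fun h => ?_
    exact hy ⟨(⌊y⌋₊ : ℚ), by push_cast; exact h⟩
  omega

/-- the parent function on the natural numbers -/
def par {r : ℕ} (π : Fin r → Fin (r + 1)) (j : ℕ) : ℕ := if h : j < r then (π ⟨j, h⟩ : ℕ) else 0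

theorem par_le {r : ℕ} (π : Fin r → Fin (r + 1)) (hπ : ∀ i, (π i : ℕ) ≤ i) (j : ℕ) : par π j ≤ j := by
  unfold par
  split_ifs with h
  · exact hπ ⟨j, h⟩
  · omega

theorem par_fin {r : ℕ} (π : Fin r → Fin (r + 1)) (i : Fin r) : par π i = (π i : ℕ) := by
  unfold par
  rw [dif_pos i.2]

/-- the nodes in the form of the problem -/
theorem nodes_eq {r : ℕ} (π : Fin r → Fin (r + 1)) (hπ : ∀ i, (π i : ℕ) ≤ i) (α : Fin r → ℝ)
    (hα : ∀ i, 1 < α i) (hirr : ∀ i, Irrational (α i)) (x : Fin (r + 1) → ℕ) (n : ℕ) (hn : 1 ≤ n)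
    (h0 : x 0 = n) (hs : ∀ i : Fin r, x i.succ = ⌈α i * (x (π i) : ℝ)⌉₊ - 1) (j : Fin (r + 1)) :
    x j = nd (par π) (ext α) n j := by
  have key : ∀ m : ℕ, ∀ hm : m < r + 1, x ⟨m, hm⟩ = nd (par π) (ext α) n m := by
    intro m
    induction m using Nat.strong_induction_on with
    | _ m ih =>
      intro hm
      rcases m with _ | m
      · rw [nd_zero]
        exact h0
      · have hmr : m < r := by omega
        have e1 : (⟨m + 1, hm⟩ : Fin (r + 1)) = Fin.succ ⟨m, hmr⟩ := rfl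
        have e2 := ih (π ⟨m, hmr⟩ : ℕ) (Nat.lt_succ_of_le (hπ ⟨m, hmr⟩)) (π ⟨m, hmr⟩).2
        have e3 : par π m = (π ⟨m, hmr⟩ : ℕ) := par_fin π ⟨m, hmr⟩
        have e4 : x (π ⟨m, hmr⟩) = nd (par π) (ext α) n (par π m) := by
          rw [e3]
          exact e2
        have hmono := nd_mono (par π) (par_le π hπ) (ext α) (par π m) fun j _ => ext_ge α hα j
        have e5 : n ≤ nd (par π) (ext α) n (par π m) := hmono.le_apply
        rw [e1, hs, nd_succ _ _ _ _ (par_le π hπ m), e4, ext_lt α m hmr]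
        apply ceil_floor
        · exact (hirr ⟨m, hmr⟩).mul_natCast (by omega)
        · have := hα ⟨m, hmr⟩
          positivity
  exact key j j.2

end Pool.Agent.D0H51.CC
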